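import Mathlib
import Pool.Agent.W443.J6.Stms

/-! The shape of the leading forms at the special edge. -/

set_option autoImplicit false

open MvPolynomial Pool.Agent.H938R2.JC Pool.Agent.W443.J5 Pool.Agent.W443.J6

namespace Pool.Agent.W976.J6

universe u

section aux

variable {k : Type u} [Field k]

lemma coeff_part (w0 w1 d : ℤ) (f : MvPolynomial (Fin 2) k) (m : Fin 2 →₀ ℕ) :
    coeff m (part w0 w1 d f) =
      if w0 * (m 0 : ℤ) + w1 * (m 1 : ℤ) = d then coeff m f else 0 := by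
  classical
  rw [part, coeff_sum]
  simp only [coeff_monomial]
  rw [Finset.sum_ite_eq']
  by_cases h : w0 * (m 0 : ℤ) + w1 * (m 1 : ℤ) = d
  · by_cases h' : coeff m f = 0
    · simp [h, h']
    · simp [h, h']
  · simp [h]

lemma dh_coeff (w0 w1 d : ℤ) (f : MvPolynomial (Fin 2) k) (j : ℕ) :
    (dh w0 w1 d f).coeff j =
      ∑ m ∈ f.support.filter (fun m => w0 * (m 0 : ℤ) + w1 * (m 1 : ℤ) = d),
        if j = m 1 then coeff m f else 0 := by
  rw [dh, part, map_sum, Polynomial.finsetSum_coeff]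
  refine Finset.sum_congr rfl fun m _ => ?_
  rw [aeval_monomial, Finsupp.prod_fintype _ _ (by simp), Fin.prod_univ_two]
  simp only [Matrix.cons_val_zero, Matrix.cons_val_one, one_pow, one_mul,
    Polynomial.algebraMap_eq, Polynomial.coeff_C_mul, Polynomial.coeff_X_pow, mul_ite, mul_one,
    mul_zero]

lemma dh_coeff3 (a : ℕ) (f : MvPolynomial (Fin 2) k) (i : ℕ) :
    (dh 3 (-1) (3 * a) f).coeff (3 * i) = coeff (e (a + i) (3 * i)) f := by
  rw [dh_coeff, Finset.sum_eq_single (e (a + i) (3 * i))]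
  · simp
  · intro m hm hne
    rw [Finset.mem_filter] at hm
    rw [if_neg]
    intro h
    apply hne
    rw [ext_iff']
    rw [e_zero, e_one]
    have h1 := hm.2
    omega
  · intro h
    rw [Finset.mem_filter, mem_support_iff] at h
    rw [if_pos (by simp)]
    by_contra h1
    apply h
    refine ⟨h1, ?_⟩
    rw [e_zero, e_one]
    push_cast
    ring

lemma dh_coeff0 (a : ℕ) (f : MvPolynomial (Fin 2) k) (j : ℕ) (hj : ¬ 3 ∣ j) :
    (dh 3 (-1) (3 * a) f).coeff j = 0 := by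
  rw [dh_coeff]
  refine Finset.sum_eq_zero fun m hm => ?_
  rw [Finset.mem_filter] at hm
  rw [if_neg]
  intro h
  apply hj
  have h1 := hm.2
  omega

/-- the forms of weight `3 a` -/
noncomputable def W (a : ℕ) (Q : Polynomial k) : MvPolynomial (Fin 2) k :=
  X 0 ^ a * Polynomial.aeval (X 0 * X 1 ^ 3 : MvPolynomial (Fin 2) k) Q

lemma W_coeff (a : ℕ) (Q : Polynomial k) (m : Fin 2 →₀ ℕ) :
    coeff m (W a Q) = if 3 * (m 0 : ℤ) + (-1) * (m 1 : ℤ) = 3 * a then Q.coeff (m 0 - a) else 0 := by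
  classical
  have h1 : W a Q = ∑ i ∈ Q.support, monomial (e (a + i) (3 * i)) (Q.coeff i) := by
    rw [W, Polynomial.aeval_eq_sum_range' (Nat.lt_succ_self _), Finset.mul_sum]
    rw [Finset.sum_subset (Polynomial.supp_subset_range_natDegree_succ (p := Q))
      (fun i _ hi => by rw [Polynomial.notMem_support_iff.1 hi, monomial_zero])]
    refine Finset.sum_congr rfl fun i _ => ?_
    rw [mul_pow, ← pow_mul, smul_eq_C_mul]
    rw [show (e (a + i) (3 * i)) = Finsupp.single 0 a + (Finsupp.single 0 i + Finsupp.single 1 (3 * i))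
      from by rw [e, ← add_assoc, ← Finsupp.single_add]]
    rw [← mul_one (Q.coeff i), ← one_mul (Q.coeff i * 1), ← monomial_mul, ← C_mul_monomial,
      monomial_add_single]
    rw [show (monomial (Finsupp.single 0 a) 1 : MvPolynomial (Fin 2) k) = X 0 ^ a from by
      rw [X_pow_eq_monomial]]
    rw [show (monomial (Finsupp.single 0 i) 1 : MvPolynomial (Fin 2) k) = X 0 ^ i from by
      rw [X_pow_eq_monomial]]
    rw [mul_one, one_mul]
  rw [h1, coeff_sum]
  simp only [coeff_monomial]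
  by_cases h : 3 * (m 0 : ℤ) + (-1) * (m 1 : ℤ) = 3 * a
  · rw [if_pos h, Finset.sum_eq_single (m 0 - a)]
    · rw [if_pos]
      rw [ext_iff', e_zero, e_one]
      omega
    · intro i _ hi
      rw [if_neg]
      intro h2
      apply hi
      rw [ext_iff', e_zero, e_one] at h2
      omega
    · intro h2
      rw [Polynomial.notMem_support_iff.1 h2, ite_self]
  · rw [if_neg h]
    refine Finset.sum_eq_zero fun i _ => ?_
    rw [if_neg]
    intro h2
    apply h
    rw [ext_iff', e_zero, e_one] at h2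
    omega

lemma part_eq (a : ℕ) (f : MvPolynomial (Fin 2) k) (Q : Polynomial k)
    (h : dh 3 (-1) (3 * a) f = Polynomial.expand k 3 Q) : part 3 (-1) (3 * a) f = W a Q := by
  ext m
  rw [coeff_part, W_coeff]
  by_cases h1 : 3 * (m 0 : ℤ) + (-1) * (m 1 : ℤ) = 3 * a
  · rw [if_pos h1, if_pos h1]
    have h2 := dh_coeff3 a f (m 0 - a)
    rw [h, mul_comm 3 (m 0 - a), Polynomial.coeff_expand_mul (by norm_num)] at h2
    rw [h2]
    congr 1
    rw [ext_iff', e_zero, e_one]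
    omega
  · rw [if_neg h1, if_neg h1]

end aux

section jac

variable {k : Type u} [Field k]

lemma W_form (a : ℕ) (κ t : k) :
    W a (Polynomial.C κ * (Polynomial.X - Polynomial.C t) ^ (2 * a)) =
      C κ * X 0 ^ a * (X 0 * X 1 ^ 3 - C t) ^ (2 * a) := by
  rw [W, map_mul, map_pow, map_sub, Polynomial.aeval_X, Polynomial.aeval_C, Polynomial.aeval_C,
    algebraMap_eq]
  ring

lemma J_forms (a b : ℕ) (κ κ' t t' : k) :
    J (C κ * X 0 ^ (a + 1) * (X 0 * X 1 ^ 3 - C t) ^ (2 * (a + 1)))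
      (C κ' * X 0 ^ (b + 1) * (X 0 * X 1 ^ 3 - C t') ^ (2 * (b + 1))) =
    C (κ * κ' * (6 * (a + 1) * (b + 1)) * (t' - t)) * (X 1 ^ 2 * X 0 ^ (a + b + 2) *
      (X 0 * X 1 ^ 3 - C t) ^ (2 * a + 1) * (X 0 * X 1 ^ 3 - C t') ^ (2 * b + 1)) := by
  have hu : ∀ s : k, pderiv 0 (X 0 * X 1 ^ 3 - C s : MvPolynomial (Fin 2) k) = X 1 ^ 3 := by
    intro s
    simp [Derivation.leibniz, Derivation.leibniz_pow, pderiv_X]
  have hv : ∀ s : k, pderiv 1 (X 0 * X 1 ^ 3 - C s : MvPolynomial (Fin 2) k) =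
      3 * X 0 * X 1 ^ 2 := by
    intro s
    simp [Derivation.leibniz, Derivation.leibniz_pow, pderiv_X]
    ring
  have hF0 : ∀ (n : ℕ) (κ s : k),
      pderiv 0 (C κ * X 0 ^ (n + 1) * (X 0 * X 1 ^ 3 - C s) ^ (2 * (n + 1)) :
        MvPolynomial (Fin 2) k) =
      C κ * (((n : MvPolynomial (Fin 2) k) + 1) * X 0 ^ n * (X 0 * X 1 ^ 3 - C s) ^ (2 * n + 2) +
        X 0 ^ (n + 1) * ((2 * (n : MvPolynomial (Fin 2) k) + 2) *
          (X 0 * X 1 ^ 3 - C s) ^ (2 * n + 1) * X 1 ^ 3)) := by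
    intro n κ s
    rw [mul_assoc, pderiv_C_mul, Derivation.leibniz,
      Derivation.leibniz_pow, Derivation.leibniz_pow, hu, pderiv_X_self,
      show 2 * (n + 1) = 2 * n + 2 from by ring, show n + 1 - 1 = n from rfl,
      show 2 * n + 2 - 1 = 2 * n + 1 from rfl]
    simp only [smul_eq_mul, nsmul_eq_mul]
    push_cast
    ring
  have hF1 : ∀ (n : ℕ) (κ s : k),
      pderiv 1 (C κ * X 0 ^ (n + 1) * (X 0 * X 1 ^ 3 - C s) ^ (2 * (n + 1)) :
        MvPolynomial (Fin 2) k) =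
      C κ * (X 0 ^ (n + 1) * ((2 * (n : MvPolynomial (Fin 2) k) + 2) *
        (X 0 * X 1 ^ 3 - C s) ^ (2 * n + 1) * (3 * X 0 * X 1 ^ 2))) := by
    intro n κ s
    have h1 : pderiv 1 (X 0 : MvPolynomial (Fin 2) k) = 0 := pderiv_X_of_ne (by decide)
    rw [mul_assoc, pderiv_C_mul, Derivation.leibniz,
      Derivation.leibniz_pow, Derivation.leibniz_pow, hv, h1,
      show 2 * (n + 1) = 2 * n + 2 from by ring,
      show 2 * n + 2 - 1 = 2 * n + 1 from rfl]
    simp only [smul_eq_mul, nsmul_eq_mul]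
    push_cast
    ring
  rw [J, hF0, hF1, hF0, hF1]
  have h1 : (C t' - C t : MvPolynomial (Fin 2) k) = (X 0 * X 1 ^ 3 - C t) - (X 0 * X 1 ^ 3 - C t') := by
    ring
  rw [C_mul, C_mul, C_mul, C_sub, h1, C_mul, C_mul, C_add, C_add, C_1, ← map_natCast C a,
    ← map_natCast C b]
  have h6 : (C 6 : MvPolynomial (Fin 2) k) = 6 := map_ofNat C 6
  rw [h6]
  generalize (X 0 * X 1 ^ 3 - C t : MvPolynomial (Fin 2) k) = U
  generalize (X 0 * X 1 ^ 3 - C t' : MvPolynomial (Fin 2) k) = V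
  ring

lemma J_part_zero {f g : MvPolynomial (Fin 2) k} {c : k} (hJ : J f g = C c) (w0 w1 d d' : ℤ)
    (hf : Top w0 w1 d f) (hg : Top w0 w1 d' g) (hw : w0 + w1 < d + d') :
    J (part w0 w1 d f) (part w0 w1 d' g) = 0 := by
  have h1 : (X 0 * X 1 * J (part w0 w1 d f) (part w0 w1 d' g) : MvPolynomial (Fin 2) k) = 0 := by
    ext m
    rw [coeff_XXJ, coeff_zero]
    by_cases hm : w0 * (m 0 : ℤ) + w1 * (m 1 : ℤ) = d + d'
    · have h2 := coeff_XXJ f g m
      rw [hJ, coeff_XX_C, if_neg] at h2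
      · rw [h2]
        refine Finset.sum_congr rfl fun x hx => ?_
        rw [Finset.HasAntidiagonal.mem_antidiagonal] at hx
        rw [coeff_part, coeff_part]
        by_cases hx1 : coeff x.1 f = 0
        · simp [hx1]
        by_cases hx2 : coeff x.2 g = 0
        · simp [hx2]
        have h3 := hf.1 _ hx1
        have h4 := hg.1 _ hx2
        have h5 : (x.1 0 : ℤ) + x.2 0 = m 0 := by
          rw [← hx]; simp
        have h6 : (x.1 1 : ℤ) + x.2 1 = m 1 := by
          rw [← hx]; simp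
        rw [← h5, ← h6] at hm
        have h7 : w0 * (x.1 0 : ℤ) + w1 * (x.1 1 : ℤ) = d := by nlinarith
        have h8 : w0 * (x.2 0 : ℤ) + w1 * (x.2 1 : ℤ) = d' := by nlinarith
        rw [if_pos h7, if_pos h8]
      · intro h3
        rw [h3] at hm
        simp at hm
        omega
    · refine Finset.sum_eq_zero fun x hx => ?_
      rw [Finset.HasAntidiagonal.mem_antidiagonal] at hx
      rw [coeff_part, coeff_part]
      by_cases h7 : w0 * (x.1 0 : ℤ) + w1 * (x.1 1 : ℤ) = d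
      · by_cases h8 : w0 * (x.2 0 : ℤ) + w1 * (x.2 1 : ℤ) = d'
        · exfalso
          apply hm
          rw [← hx, ← h7, ← h8]
          simp
          ring
        · rw [if_neg h8]
          ring
      · rw [if_neg h7]
        ring
  have hX : (X 0 * X 1 : MvPolynomial (Fin 2) k) ≠ 0 := mul_ne_zero (X_ne_zero 0) (X_ne_zero 1)
  exact (mul_eq_zero.1 h1).resolve_left hX

end jac

/-- the shape of one of the forms -/
lemma shape (hDH : S_DH.{u}) (hE3 : S_E3.{u}) {k : Type u} [Field k] [IsAlgClosed k] [CharZero k]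
    (f g : MvPolynomial (Fin 2) k) (c : k) (hc : c ≠ 0) (hJ : J f g = C c) (a : ℕ) (ha : 2 ≤ a)
    (hL : Low 3 (-1) a 0 f) (hU : Upp 3 (-1) (3 * a) (6 * a) f) :
    Top 3 (-1) (3 * a) f ∧ ∃ κ t : k, κ ≠ 0 ∧ t ≠ 0 ∧
      part 3 (-1) (3 * a) f = C κ * X 0 ^ a * (X 0 * X 1 ^ 3 - C t) ^ (2 * a) := by
  have hT : Top 3 (-1) (3 * a) f := by
    constructor
    · intro m hm
      have h1 := hL.2 m hm
      push_cast at h1
      omega
    · refine ⟨e a 0, hL.1, ?_⟩
      rw [e_zero, e_one]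
      push_cast
      ring
  have h0 : (dh 3 (-1) (3 * a) f).coeff 0 ≠ 0 := by
    have h1 := dh_coeff3 a f 0
    rw [mul_zero, add_zero] at h1
    rw [h1]
    exact hL.1
  have h6 : (dh 3 (-1) (3 * a) f).coeff (6 * a) ≠ 0 := by
    have h1 := dh_coeff3 a f (2 * a)
    rw [show 3 * (2 * a) = 6 * a from by ring, show a + 2 * a = 3 * a from by ring] at h1
    rw [h1]
    exact hU.1
  have hs : ∀ j, (dh 3 (-1) (3 * a) f).coeff j ≠ 0 → j ≤ 6 * a ∧ 3 ∣ j := by
    intro j hj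
    have h3 : 3 ∣ j := by
      by_contra h
      exact hj (dh_coeff0 a f j h)
    obtain ⟨i, rfl⟩ := h3
    refine ⟨?_, dvd_mul_right _ _⟩
    rw [dh_coeff3] at hj
    have h1 := hU.2 _ hj
    rw [e_zero, e_one] at h1
    push_cast at h1
    omega
  have hdeg : 0 < (dh 3 (-1) (3 * a) f).natDegree := by
    have h1 := Polynomial.le_natDegree_of_ne_zero h6
    omega
  obtain ⟨φ, hφ⟩ := hDH k f g c hc hJ 3 (-1) (3 * a) (by norm_num) (by norm_num)
    (by omega) hT hdeg
  obtain ⟨κ, t, hκ, ht, hα⟩ := hE3 k _ φ a (by omega) h0 h6 hs hφ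
  refine ⟨hT, κ, t, hκ, ht, ?_⟩
  rw [part_eq a f (Polynomial.C κ * (Polynomial.X - Polynomial.C t) ^ (2 * a)), W_form]
  rw [hα]
  simp

/-- (SPL) -/
theorem spl : S_DH.{u} → S_E3.{u} → S_SPL.{u} := by
  intro hDH hE3 k _ _ _ f g a b ha hb hab hbad hS hS' hL hU
  obtain ⟨⟨c, hc, hJ⟩, -⟩ := hbad
  obtain ⟨hT, κ, t, hκ, ht, hf⟩ := shape hDH hE3 f g c hc hJ a ha hL hU
  obtain ⟨p, q, hp, hq, hL'⟩ := hS.2.1 3 (-1) (by norm_num) a 0 hL
  obtain ⟨p2, q2, hp2, hq2, hU'⟩ := hS.2.2 3 (-1) (by norm_num) (3 * a) (6 * a) hU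
  have e1 : p = 1 := by
    have : a * p = a * 1 := by rw [← hp, mul_one]
    exact Nat.eq_of_mul_eq_mul_left (by omega) this
  have e2 : q = 0 := by
    rcases Nat.mul_eq_zero.1 hq.symm with h | h
    · omega
    · exact h
  have e3 : p2 = 3 := by
    have : a * p2 = a * 3 := by rw [← hp2, mul_comm]
    exact Nat.eq_of_mul_eq_mul_left (by omega) this
  have e4 : q2 = 6 := by
    have : a * q2 = a * 6 := by rw [← hq2, mul_comm]
    exact Nat.eq_of_mul_eq_mul_left (by omega) this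
  rw [e1, e2, mul_one, mul_zero] at hL'
  rw [e3, e4, mul_comm b 3, mul_comm b 6] at hU'
  have hJ' : J g f = C (-c) := by rw [J_swap, hJ, C_neg]
  obtain ⟨hT', κ', t', hκ', ht', hg⟩ := shape hDH hE3 g f (-c) (neg_ne_zero.2 hc) hJ' b hb hL' hU'
  have h0 := J_part_zero hJ 3 (-1) (3 * a) (3 * b) hT hT' (by omega)
  have htt : t' = t := by
    obtain ⟨a', rfl⟩ : ∃ a', a = a' + 1 := ⟨a - 1, by omega⟩
    obtain ⟨b', rfl⟩ : ∃ b', b = b' + 1 := ⟨b - 1, by omega⟩
    rw [hf, hg, J_forms] at h0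
    have hu : ∀ s : k, (X 0 * X 1 ^ 3 - C s : MvPolynomial (Fin 2) k) ≠ 0 := by
      intro s h
      have h1 := congrArg (coeff (e 1 3)) h
      have h2 : (X 0 * X 1 ^ 3 : MvPolynomial (Fin 2) k) = monomial (e 1 3) 1 := by
        rw [e, X_pow_eq_monomial, X, monomial_mul, mul_one]
      rw [coeff_sub, h2, coeff_monomial, if_pos rfl, coeff_C, if_neg, coeff_zero, sub_zero] at h1
      · exact one_ne_zero h1
      · intro h3
        have h4 := DFunLike.congr_fun h3 0
        rw [e_zero] at h4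
        simp at h4
    rcases mul_eq_zero.1 h0 with h | h
    · rw [C_eq_zero] at h
      have h2 : κ * κ' * (6 * ((a' : k) + 1) * ((b' : k) + 1)) ≠ 0 := by
        refine mul_ne_zero (mul_ne_zero hκ hκ') (mul_ne_zero (mul_ne_zero (by norm_num) ?_) ?_)
        · exact Nat.cast_add_one_ne_zero a'
        · exact Nat.cast_add_one_ne_zero b'
      exact sub_eq_zero.1 ((mul_eq_zero.1 h).resolve_left h2)
    · exfalso
      exact mul_ne_zero (mul_ne_zero (mul_ne_zero (pow_ne_zero _ (X_ne_zero 1))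
        (pow_ne_zero _ (X_ne_zero 0))) (pow_ne_zero _ (hu t))) (pow_ne_zero _ (hu t')) h
  rw [htt] at hg
  exact ⟨κ, κ', t, hκ, hκ', ht, hT, hT', hf, hg⟩

end Pool.Agent.W976.J6
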